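import Pool.Agent.Helper42.SQ.GABs
import Pool.Agent.Helper61.AZ.ThmB

/-!
# AU, block U4b: the theorem for the germs of points in towers, with forms which move with the point
-/

set_option autoImplicit false

namespace Pool.Agent.SQ

open NumberField Filter Module MvPolynomial
open Pool.Agent.Helper64.Vojta (Pl nv sn above)
open Pool.Agent.V2
open Pool.Agent.Chart (fld dg crd val hgt lam)

universe u

section

variable {k : Type u} [Field k] [NumberField k] {G : Type} [Group G] [Fintype G] {D : SqG k G} (F : GFG D)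

private theorem rp_zero67 : ∀ᶠ a in (D.U : Filter ℕ), F.rp 0 a = 0 := by
  filter_upwards [F.rp_alg 0] with a ha
  rw [map_zero, map_zero] at ha
  exact ha

private theorem rp_sum67 {ι : Type} (s : Finset ι) (f : ι → F.K) :
    ∀ᶠ a in (D.U : Filter ℕ), F.rp (∑ j ∈ s, f j) a = ∑ j ∈ s, F.rp (f j) a := by
  classical
  induction s using Finset.induction_on with
  | empty =>
    filter_upwards [rp_zero67 F] with a ha
    rw [Finset.sum_empty, Finset.sum_empty, ha]
  | insert i s hi ih =>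
    filter_upwards [ih, F.rp_add (f i) (∑ j ∈ s, f j)] with a h1 h2
    rw [Finset.sum_insert hi, Finset.sum_insert hi, h2, h1]

variable {ι : Type} [Fintype ι] (x : ∀ n, ι → D.L n) (hx : Ptg D x)
  (ξ : ι → F.K) (hξ : ∀ j, ∀ᶠ n in (D.U : Filter ℕ), F.rp (ξ j) n = x n j)

omit [Fintype ι] in
private theorem fix67 {H : Subgroup G} (hξ : ∀ j, ∀ᶠ n in (D.U : Filter ℕ), F.rp (ξ j) n = x n j)
    (hxH : ∀ n, ∀ h ∈ H, ∀ j, D.s n h (x n j) = x n j) :
    ∀ z ∈ Submodule.span (slk F) (Set.range ξ), ∀ h ∈ H, ss F h z = z := by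
  intro z hz h hh
  induction hz using Submodule.span_induction with
  | mem z hz =>
    obtain ⟨j, rfl⟩ := hz
    refine F.rp_inj _ _ ?_
    filter_upwards [hξ j, F.rp_s h (ξ j)] with n h1 h2
    show F.rp (F.s h (ξ j)) n = F.rp (ξ j) n
    rw [h2, h1, hxH n h hh j]
  | zero => exact map_zero _
  | add a b _ _ ha hb => rw [map_add, ha, hb]
  | smul r a _ ha => rw [map_smul, ha]

omit [Fintype ι] in
private theorem cgH67 {H : Subgroup G} (hxH : ∀ n, ∀ h ∈ H, ∀ j, D.s n h (x n j) = x n j) (v : Pl k) (g h : G)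
    (hh : h ∈ H) : cg D x v (g * h) = cg D x v g := by
  have h1 : ∀ n, (fun j => D.s n (g * h) (x n j)) = fun j => D.s n g (x n j) := by
    intro n
    funext j
    rw [map_mul]
    show D.s n g (D.s n h (x n j)) = _
    rw [hxH n h hh j]
  unfold cg
  simp only [h1]

end

/-- The theorem for the germs of a sequence of points fixed by the subnormal subgroup `H` and of moving forms, outside the
zeros of the members of `A`. -/
theorem germsB_ts {k : Type u} [Field k] [NumberField k] {G : Type} [Group G] [Fintype G] {D : SqG k G} (F : GFG D)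
    {n q : ℕ} {H : Subgroup G} [Fintype (G ⧸ H)] (hH : H.IsSubnormal) {x : ∀ a, Fin (n + 1) → D.L a}
    (hx : Ptg D x) (ξ : Fin (n + 1) → F.K) (hξ : ∀ j, ∀ᶠ a in (D.U : Filter ℕ), F.rp (ξ j) a = x a j)
    (hxH : ∀ a, ∀ h ∈ H, ∀ j, D.s a h (x a j) = x a j)
    (l : Fin q → Fin (n + 1) → slk F) (lr : ℕ → Fin q → Fin (n + 1) → k)
    (hlr : ∀ i j, ∀ᶠ a in (D.U : Filter ℕ), F.rp (l i j : F.K) a = algebraMap k (D.L a) (lr a i j))
    (hl : ∀ i, l i ∉ kerS F ξ) {A FF : Finset (Submodule (slk F) (Fin (n + 1) → slk F))} (hz : ZL l A FF)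
    (hA : ∀ E ∈ A, ¬ E ≤ kerS F ξ) (P : Finset (Pl k)) {r : ℕ} (hr : 2 ≤ r) (hHr : H.index ≤ r) {ε : ℝ} (hε : 0 < ε) :
    ∀ᶠ a in (D.U : Filter ℕ), ∑ v ∈ P, ∑ g, ∑ i, (Real.log (mxn (D.N a v) fun j => D.s a g (x a j)) -
      Real.log (D.N a v (D.s a g (lvg (lr a i) (x a))))) ≤ (r * (n + 1) + ε) * D.H a := by
  classical
  have hrange : LinearMap.range (Fintype.linearCombination (slk F) ξ) = Submodule.span (slk F) (Set.range ξ) :=
    Fintype.range_linearCombination (slk F) ξ
  have hfix := fix67 F x ξ hξ hxH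
  have hprod := omgs_prod F x hx ξ hξ hxH P
  have hsub := sub_ts F x hx ξ hξ hxH P
  have hnn := omgs_nonneg F x hx ξ hξ
  have hat := omgs_attained F x hx ξ hξ
  set Θ : (Fin (n + 1) → slk F) →ₗ[slk F] F.K := Fintype.linearCombination (slk F) ξ with hΘdef
  have hΘ : ∀ m, Θ m = ∑ j, m j • ξ j := fun m => Fintype.linearCombination_apply (slk F) ξ m
  have hker : ∀ m, Θ m = 0 ↔ m ∈ kerS F ξ := fun m => Iff.rfl
  have hmem : ∀ m, Θ m ∈ Submodule.span (slk F) (Set.range ξ) := fun m => by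
    rw [← hrange]
    exact LinearMap.mem_range_self _ _
  have hL : ∀ i, Θ (l i) ≠ 0 := fun i h => hl i ((hker _).1 h)
  have hΘ0 : Θ ≠ 0 := by
    intro h0
    obtain ⟨v, g⟩ : Nonempty (Pl k × G) := ⟨(.inl Classical.ofNonempty, 1)⟩
    obtain ⟨z, h1, h2, -⟩ := hat v g
    rw [← hrange, h0, LinearMap.range_zero, Submodule.mem_bot] at h1
    exact h2 h1
  have key := thmB_z hz (fun (i : P × G) (z : F.K) => omg F i.1 (ss F i.2 z))
    (fun i => (omg_RVs F (i.1 : Pl k)).comp (ss F i.2)) (fun i => cg D x i.1 i.2) Θ hΘ0 hL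
    (fun E hE => by
      have h1 := hA E hE
      rw [SetLike.le_def] at h1
      push Not at h1
      obtain ⟨m, hm, hm'⟩ := h1
      exact ⟨m, hm, fun h => hm' ((hker m).1 h)⟩)
    (fun i m hm => hnn i.1 i.2 _ (hmem m) hm)
    (fun i => by
      obtain ⟨z, h1, h2, h3⟩ := hat i.1 i.2
      rw [← hrange] at h1
      obtain ⟨m, rfl⟩ := h1
      exact ⟨m, h2, h3⟩)
    (fun m hm => by
      have h1 := hprod (Θ m) (hmem m) hm
      rw [← Finset.sum_coe_sort P (fun v => ∑ g, (omg F v (ss F g (Θ m)) + cg D x v g))] at h1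
      rw [Fintype.sum_prod_type]
      exact h1)
    (fun d => r * d)
    (fun d D' _ _ _ => le_of_eq (by ring))
    (fun p hp => by
      have h1 : ((n + 1 - p : ℕ) : ℝ) = (n + 1 : ℕ) - p := by
        rw [Nat.cast_sub (by omega)]
      rw [h1]
      have h2 : (2 : ℝ) ≤ r := by exact_mod_cast hr
      have h3 := mul_le_mul_of_nonneg_right h2 (Nat.cast_nonneg (α := ℝ) p)
      linarith)
    (fun E _ hE => by
      refine ⟨0, fun N hN => ?_⟩
      rw [hrange] at hE
      have : FiniteDimensional (slk F) (Submodule.span (slk F) (Set.range ξ)) :=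
        FiniteDimensional.span_of_finite (slk F) (Set.finite_range ξ)
      have : FiniteDimensional (slk F) E := Submodule.finiteDimensional_of_le hE
      have h1 := abs_t (ss F) hH (P := P) (fun v => omg F v) (fun v => omg_RVs F v) (fun v g => cg D x v g)
        (fun v g h hh => cgH67 x hxH v g h hh) E (fun z hz => hfix z (hE hz))
        (fun v g z hz hz0 => hnn v g z (hE hz) hz0)
        (fun m E' hE' hEs N z hz hzE => hsub m E' (hE'.trans (by
          exact pow_le_pow_left' (Finset.prod_le_prod' fun q _ => Submodule.map_mono hE) m)) hEs N z hz hzE) hN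
      rw [Fintype.sum_prod_type]
      have h2 : (∑ v : P, ∑ g, (SN ((omg_RVs F (v : Pl k)).comp (ss F g)) N (cg D x v g) E : ℝ)) ≤
          H.index * N * finrank (slk F) E := by exact_mod_cast h1
      refine h2.trans ?_
      have h3 : (H.index : ℝ) ≤ r := by exact_mod_cast hHr
      have h4 := mul_le_mul_of_nonneg_right h3 (mul_nonneg (Nat.cast_nonneg (α := ℝ) N)
        (Nat.cast_nonneg (α := ℝ) (finrank (slk F) E)))
      linarith)
  have key' : ∑ v ∈ P, ∑ g, ∑ i, (omg F v (F.s g (Θ (l i))) + cg D x v g) ≤ r * (n + 1) := by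
    rw [Fintype.sum_prod_type] at key
    rw [← Finset.sum_coe_sort P
      (fun v => ∑ g, ∑ i, (omg F v (F.s g (Θ (l i))) + cg D x v g))]
    have h1 : ((n + 1 : ℕ) : ℝ) = n + 1 := by push_cast; ring
    rw [← h1]
    exact key
  have hrp : ∀ i, ∀ᶠ a in (D.U : Filter ℕ), F.rp (Θ (l i)) a = lvg (lr a i) (x a) := by
    intro i
    have h1 : ∀ᶠ a in (D.U : Filter ℕ), ∀ j, F.rp (l i j • ξ j) a = algebraMap k (D.L a) (lr a i j) * x a j := by
      rw [eventually_all]
      intro j
      filter_upwards [hlr i j, hξ j, F.rp_mul (l i j : F.K) (ξ j)] with a h2 h3 h4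
      rw [← h2, ← h3, ← h4]
      rfl
    filter_upwards [h1, rp_sum67 F Finset.univ fun j => l i j • ξ j] with a h2 h3
    rw [hΘ, h3]
    unfold lvg
    exact Finset.sum_congr rfl fun j _ => h2 j
  have hlim : ∀ (v : Pl k) (g : G) (i : Fin q), Tendsto (fun a => (Real.log (mxn (D.N a v) fun j => D.s a g (x a j)) -
      Real.log (D.N a v (D.s a g (lvg (lr a i) (x a))))) / D.H a) (D.U : Filter ℕ)
      (nhds (omg F v (F.s g (Θ (l i))) + cg D x v g)) := by
    intro v g i
    have h0 : F.s g (Θ (l i)) ≠ 0 := by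
      rw [Ne, EmbeddingLike.map_eq_zero_iff]
      exact hL i
    have h1 := (omg_tendsto F v _ h0).add (cg_tendsto x hx v g)
    refine h1.congr' ?_
    filter_upwards [hrp i, F.rp_s g (Θ (l i))] with a h3 h4
    rw [h4, h3]
    ring
  have hsum : Tendsto (fun a => ∑ v ∈ P, ∑ g, ∑ i, (Real.log (mxn (D.N a v) fun j => D.s a g (x a j)) -
      Real.log (D.N a v (D.s a g (lvg (lr a i) (x a))))) / D.H a) (D.U : Filter ℕ)
      (nhds (∑ v ∈ P, ∑ g, ∑ i, (omg F v (F.s g (Θ (l i))) + cg D x v g))) :=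
    tendsto_finsetSum _ fun v _ => tendsto_finsetSum _ fun g _ => tendsto_finsetSum _ fun i _ => hlim v g i
  have hlt : ∑ v ∈ P, ∑ g, ∑ i, (omg F v (F.s g (Θ (l i))) + cg D x v g) < r * (n + 1) + ε := by linarith
  filter_upwards [hsum.eventually (gt_mem_nhds hlt), D.H1.eventually (eventually_gt_atTop 0)] with a h1 h2
  have h3 : ∑ v ∈ P, ∑ g, ∑ i, (Real.log (mxn (D.N a v) fun j => D.s a g (x a j)) -
      Real.log (D.N a v (D.s a g (lvg (lr a i) (x a))))) / D.H a = (∑ v ∈ P, ∑ g, ∑ i, (Real.log (mxn (D.N a v) fun j =>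
      D.s a g (x a j)) - Real.log (D.N a v (D.s a g (lvg (lr a i) (x a)))))) / D.H a := by
    simp only [Finset.sum_div]
  rw [h3, div_lt_iff₀ h2] at h1
  exact h1.le

end Pool.Agent.SQ
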